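import Pool.Agent.H17.VS.TargetsB

/-!
Row STV of the board vs_modules (MP_70ba79_ag): the steps.
-/

set_option autoImplicit false

namespace Pool.Agent.H49.VS

open MvPolynomial SC Pool.Agent.H27.LV Pool.Agent.H17.VG Pool.Agent.H17.CI Pool.Agent.H17.VS

theorem eval_PQT {K : Type} [Field K] {n : ℕ} {ι κ : Type} (x : Fin (n + 1) → K)
    (Q : κ → Tup ι K n) (G : Tup ι K n) (hG : G ∈ PQT x Q) (i : ι) : eval x (G i) = 0 := by
  unfold PQT at hG
  induction hG using Submodule.span_induction with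
  | mem G h =>
    obtain ⟨ξ, j, h1, rfl⟩ := h
    have h2 : eval x (lin ξ) = 0 := by
      unfold lin
      simpa using h1
    rw [map_mul, h2, zero_mul]
  | zero => simp
  | add a b _ _ ha hb => rw [Pi.add_apply, map_add, ha, hb, add_zero]
  | smul a b _ hb => rw [Pi.smul_apply, smul_eval, hb, mul_zero]

theorem pf_STV (hON : T_ONV) (hTZ : T_TZV) : T_STV := by
  intro R k K _ _ _ _ _ _ n ι _ e F D Z x hS hP B g hFr
  obtain ⟨-, hcard, hW, -⟩ := hTZ R K n ι e F D Z x hS hP B g hFr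
  have hU : ∀ (s : ℕ) (Q : Fin s → (Σ i, Mon (n + 1) (e i)) → k),
      UV R F x (PQT x fun j => upT K (frmT (Q j))) ≤ TZ R Z F x ∧
      (fun i => D (x i)) ∈ UV R F x (PQT x fun j => upT K (frmT (Q j))) := fun s Q =>
    hW _ fun G hG i _ => eval_PQT x _ G hG i
  have claim : ∀ t : ℕ, ∃ (s : ℕ) (Q : Fin s → (Σ i, Mon (n + 1) (e i)) → k),
      s + 1 ≤ Module.finrank K (UV R F x (PQT x fun j => upT K (frmT (Q j)))) ∧
      (UV R F x (PQT x fun j => upT K (frmT (Q j))) = TZ R Z F x ∨ t ≤ s) := by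
    intro t
    induction t with
    | zero =>
      refine ⟨0, fun j => j.elim0, ?_, Or.inr le_rfl⟩
      have h1 := (hU 0 fun j => j.elim0).2
      have h2 : Nontrivial (UV R F x (PQT x fun j : Fin 0 =>
          upT K (frmT ((fun j => j.elim0 : Fin 0 → (Σ i, Mon (n + 1) (e i)) → k) j)))) :=
        ⟨⟨_, h1⟩, 0, fun h => hP.dx (congrArg Subtype.val h)⟩
      exact Module.finrank_pos
    | succ t ih =>
      obtain ⟨s, Q, h1, h2⟩ := ih
      by_cases h3 : UV R F x (PQT x fun j => upT K (frmT (Q j))) = TZ R Z F x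
      · exact ⟨s, Q, h1, Or.inl h3⟩
      · obtain ⟨Q', hQ'⟩ := hON R k K n s ι e F D Z x hS hP Q h3
        have h4 := h2.resolve_left h3
        exact ⟨s + 1, Q', by omega, Or.inr (by omega)⟩
  obtain ⟨s, Q, h1, h2⟩ := claim B.card
  have h3 : Module.finrank K (UV R F x (PQT x fun j => upT K (frmT (Q j)))) ≤
      Module.finrank K (TZ R Z F x) := Submodule.finrank_mono (hU s Q).1
  refine ⟨s, Q, by omega, h2.resolve_right fun h => ?_⟩
  omega

end Pool.Agent.H49.VS
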