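import Pool.Agent.H17.VS.TargetsF
import Pool.Agent.H17.VS.TargetsD

/-!
Row MAV of the board vs_modules (MP_70ba79_ag): the main inequality with multiplicities.
-/

set_option autoImplicit false

namespace Pool.Agent.H49.VS

open MvPolynomial SC Pool.Agent.H27.LV Pool.Agent.H17.VG Pool.Agent.H17.CI Pool.Agent.H17.VS

theorem pf_MAV (hTR : T_TRU) (hNZ : T_NZR) : T_MAV := by
  classical
  intro k0 k K _ _ _ _ _ _ _ _ _ _ htr n r ι _ e μ c hc D hD x hx0 hdim hxk S hS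
  have hF : ∀ i, (frmT c i).IsHomogeneous (e i + 1) := fun i => frm_homog _
  have hfin : ∀ i, eval x (upT K (frmT c) i) ≠ 0 →
      {v : DV k K | v.ord (eval x (upT K (frmT c) i)) ≠ 0}.Finite := fun i hi =>
    ((hNZ k K htr n (e i + 1) (frmT c i) (hF i) x hx0).2 hi).1
  let V : ι → Finset (DV k K) := fun i =>
    (if h : eval x (upT K (frmT c) i) ≠ 0 then (hfin i h).toFinset else ∅).filter fun v => v ∉ S
  have hV : ∀ i v, v ∈ V i → eval x (upT K (frmT c) i) ≠ 0 ∧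
      v.ord (eval x (upT K (frmT c) i)) ≠ 0 ∧ v ∉ S := by
    intro i v hv
    obtain ⟨h1, h2⟩ := Finset.mem_filter.1 hv
    by_cases h : eval x (upT K (frmT c) i) ≠ 0
    · rw [dif_pos h] at h1
      exact ⟨h, (Set.Finite.mem_toFinset _).1 h1, h2⟩
    · rw [dif_neg h] at h1
      exact absurd h1 (Finset.notMem_empty _)
  have hcard : ∀ i, ((V i).card : ℚ) ≤ ((e i : ℚ) + 1) * (μ i : ℚ)⁻¹ * deg k x := by
    intro i
    by_cases hVe : V i = ∅
    · rw [hVe, Finset.card_empty, Nat.cast_zero]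
      positivity
    · obtain ⟨v0, hv0⟩ := Finset.nonempty_iff_ne_empty.2 hVe
      obtain ⟨h1, h2, h3⟩ := hV i v0 hv0
      have hμ : μ i ≠ 0 := fun h => h2 (((hS v0 h3).2 i h1).1 h)
      have h4 := ((hNZ k K htr n (e i + 1) (frmT c i) (hF i) x hx0).2 h1).2 (μ i) (V i)
        (fun v hv => by
          obtain ⟨_, h6, h7⟩ := hV i v hv
          exact ((hS v h7).2 i h1).2 h6)
      have h5 : ((μ i : ℚ)) * (V i).card ≤ ((e i : ℚ) + 1) * deg k x := by exact_mod_cast h4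
      have hμ' : (0 : ℚ) < μ i := by exact_mod_cast Nat.pos_of_ne_zero hμ
      calc ((V i).card : ℚ) = (μ i : ℚ)⁻¹ * ((μ i : ℚ) * (V i).card) := by
            rw [← mul_assoc, inv_mul_cancel₀ hμ'.ne', one_mul]
        _ ≤ (μ i : ℚ)⁻¹ * (((e i : ℚ) + 1) * deg k x) := by gcongr
        _ = _ := by ring
  have hmain := hTR k0 k K htr n r ι e c hc D hD x hx0 hdim hxk (S ∪ Finset.univ.biUnion V) (by
    intro v hv
    rw [Finset.mem_union, not_or] at hv
    refine ⟨(hS v hv.1).1, fun i hi => ?_⟩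
    by_contra hne
    apply hv.2
    rw [Finset.mem_biUnion]
    refine ⟨i, Finset.mem_univ _, Finset.mem_filter.2 ⟨?_, hv.1⟩⟩
    rw [dif_pos hi]
    exact (Set.Finite.mem_toFinset _).2 hne)
  have hS' : ((S ∪ Finset.univ.biUnion V).card : ℚ) ≤ S.card + ∑ i, ((V i).card : ℚ) := by
    have h1 := Finset.card_union_le S (Finset.univ.biUnion V)
    have h2 : (Finset.univ.biUnion V).card ≤ ∑ i, (V i).card := Finset.card_biUnion_le
    have h3 : (S ∪ Finset.univ.biUnion V).card ≤ S.card + ∑ i, (V i).card := by omega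
    exact_mod_cast h3
  have hmainQ : ((∑ i, ((e i : ℚ) + 1)) - 2 * r + 1) * deg k x ≤
      (canDeg D : ℚ) + ((S ∪ Finset.univ.biUnion V).card : ℚ) := by exact_mod_cast hmain
  have hsum : ∑ i, ((V i).card : ℚ) ≤ (∑ i, ((e i : ℚ) + 1) * (μ i : ℚ)⁻¹) * deg k x := by
    rw [Finset.sum_mul]
    exact Finset.sum_le_sum fun i _ => hcard i
  have e1 : ∑ i, ((e i : ℚ) + 1) * (1 - (μ i : ℚ)⁻¹) =
      (∑ i, ((e i : ℚ) + 1)) - ∑ i, ((e i : ℚ) + 1) * (μ i : ℚ)⁻¹ := by
    rw [← Finset.sum_sub_distrib]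
    exact Finset.sum_congr rfl fun i _ => by ring
  rw [e1]
  push_cast
  nlinarith

end Pool.Agent.H49.VS
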